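import Mathlib

/-!
# Sidon sets in `Z_9^r` and `Z_25^r`

The group `Z_{p²}^r` is realised as an extension of `K = 𝔽_{p^r}` by itself with the Witt vector
cocycle; the elements `(x, 0)` are the Teichmüller representatives.
-/

set_option autoImplicit false

namespace Pool.Agent.K1H61.Bab

open Finset

/-- a symmetric 2-cocycle -/
structure Coc (K : Type) [CommRing K] where
  c : K → K → K
  symm : ∀ a b, c a b = c b a
  zero : ∀ a, c a 0 = 0
  assoc : ∀ a b d, c a b + c (a + b) d = c b d + c a (b + d)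

/-- the extension of `K` by `K` -/
@[ext] structure Tw {K : Type} [CommRing K] (C : Coc K) where
  fst : K
  snd : K

variable {K : Type} [CommRing K] {C : Coc K}

namespace Tw

instance : Add (Tw C) := ⟨fun x y => ⟨x.fst + y.fst, x.snd + y.snd + C.c x.fst y.fst⟩⟩
instance : Zero (Tw C) := ⟨⟨0, 0⟩⟩
instance : Neg (Tw C) := ⟨fun x => ⟨-x.fst, -x.snd - C.c x.fst (-x.fst)⟩⟩

theorem add_def (x y : Tw C) : x + y = ⟨x.fst + y.fst, x.snd + y.snd + C.c x.fst y.fst⟩ := rfl
theorem zero_def : (0 : Tw C) = ⟨0, 0⟩ := rfl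
theorem neg_def (x : Tw C) : -x = ⟨-x.fst, -x.snd - C.c x.fst (-x.fst)⟩ := rfl

instance : AddCommGroup (Tw C) where
  add_assoc x y z := by
    simp only [add_def]
    ext
    · simp only; ring
    · simp only
      linear_combination C.assoc x.fst y.fst z.fst
  zero_add x := by
    simp only [add_def, zero_def]
    ext
    · simp
    · simp only [C.symm 0 x.fst, C.zero]; ring
  add_zero x := by
    simp only [add_def, zero_def]
    ext
    · simp
    · simp only [C.zero]; ring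
  neg_add_cancel x := by
    simp only [add_def, neg_def, zero_def]
    ext
    · simp
    · simp only [C.symm (-x.fst) x.fst]; ring
  add_comm x y := by
    simp only [add_def]
    ext
    · simp only; ring
    · simp only [C.symm y.fst x.fst]; ring
  nsmul := nsmulRec
  zsmul := zsmulRec

/-- the first coordinate -/
def fstHom (C : Coc K) : Tw C →+ K where
  toFun x := x.fst
  map_zero' := rfl
  map_add' _ _ := rfl

/-- the inclusion of the second coordinate -/
def inr (C : Coc K) : K →+ Tw C where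
  toFun y := ⟨0, y⟩
  map_zero' := rfl
  map_add' x y := by
    rw [add_def]
    ext
    · simp
    · simp [C.zero]

/-- as a set `Tw C` is `K × K` -/
def equivProd (C : Coc K) : Tw C ≃ K × K where
  toFun x := (x.fst, x.snd)
  invFun x := ⟨x.1, x.2⟩
  left_inv _ := rfl
  right_inv _ := rfl

end Tw

open Tw

section hom

variable {F : Type} [Field F] (D : Coc F) (p : ℕ) [hp : Fact p.Prime] [CharP F p]
  [Algebra (ZMod p) F] (κ : F)

theorem sq_smul (hκ : ∀ x y : F, p • (⟨x, y⟩ : Tw D) = ⟨0, κ * x ^ p⟩) (g : Tw D) :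
    (p ^ 2) • g = 0 := by
  rw [pow_two, mul_nsmul, hκ g.fst g.snd, hκ, zero_pow hp.out.ne_zero, mul_zero]
  rfl

/-- the homomorphism `Z_{p²}^r → Tw D` -/
noncomputable def hom (hκ : ∀ x y : F, p • (⟨x, y⟩ : Tw D) = ⟨0, κ * x ^ p⟩) (r : ℕ)
    (e : Fin r → F) : (Fin r → ZMod (p ^ 2)) →+ Tw D :=
  ∑ i, (ZMod.lift (p ^ 2) ⟨zmultiplesHom (Tw D) (⟨e i, 0⟩ : Tw D), by
    show ((p ^ 2 : ℕ) : ℤ) • (⟨e i, 0⟩ : Tw D) = 0
    rw [natCast_zsmul]
    exact sq_smul D p κ hκ _⟩).comp (Pi.evalAddMonoidHom (fun _ : Fin r => ZMod (p ^ 2)) i)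

theorem hom_apply (hκ : ∀ x y : F, p • (⟨x, y⟩ : Tw D) = ⟨0, κ * x ^ p⟩) (r : ℕ)
    (e : Fin r → F) (v : Fin r → ZMod (p ^ 2)) :
    hom D p κ hκ r e v = ∑ i, (v i).val • (⟨e i, 0⟩ : Tw D) := by
  haveI : NeZero (p ^ 2) := ⟨pow_ne_zero 2 hp.out.ne_zero⟩
  unfold hom
  rw [AddMonoidHom.finsetSum_apply]
  refine sum_congr rfl fun i _ => ?_
  rw [AddMonoidHom.comp_apply, Pi.evalAddMonoidHom_apply]
  have h1 : v i = (((v i).val : ℤ) : ZMod (p ^ 2)) := by simp
  conv_lhs => rw [h1]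
  rw [ZMod.lift_coe]
  show (((v i).val : ℕ) : ℤ) • (⟨e i, 0⟩ : Tw D) = _
  rw [natCast_zsmul]

theorem indep {r : ℕ} (e : Fin r → F) (he : LinearIndependent (ZMod p) e) (n : Fin r → ℕ)
    (h : ∑ i, n i • e i = 0) (i : Fin r) : p ∣ n i := by
  have h1 : ∑ i, ((n i : ℕ) : ZMod p) • e i = 0 := by
    rw [← h]
    refine sum_congr rfl fun j _ => ?_
    exact Nat.cast_smul_eq_nsmul (ZMod p) (n j) (e j)
  have h2 := Fintype.linearIndependent_iff.mp he _ h1 i
  exact (ZMod.natCast_eq_zero_iff _ _).mp h2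

theorem hom_injective (hκ : ∀ x y : F, p • (⟨x, y⟩ : Tw D) = ⟨0, κ * x ^ p⟩) (hκ0 : κ ≠ 0)
    (r : ℕ) (e : Fin r → F) (he : LinearIndependent (ZMod p) e) :
    Function.Injective (hom D p κ hκ r e) := by
  haveI : NeZero (p ^ 2) := ⟨pow_ne_zero 2 hp.out.ne_zero⟩
  rw [injective_iff_map_eq_zero]
  intro v hv
  rw [hom_apply] at hv
  have h1 : ∑ i, (v i).val • e i = 0 := by
    have := congrArg (fstHom D) hv
    rw [map_sum, map_zero] at this
    rw [← this]
    refine sum_congr rfl fun i _ => ?_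
    rw [map_nsmul]
    rfl
  have h2 := indep p e he _ h1
  choose u hu using h2
  have h3 : inr D (κ * (∑ i, u i • e i) ^ p) = 0 := by
    rw [← hv, ← frobenius_def, map_sum, mul_sum, map_sum]
    refine sum_congr rfl fun i _ => ?_
    rw [hu i, mul_comm p (u i), mul_nsmul', hκ, map_nsmul, mul_smul_comm, map_nsmul, frobenius_def]
    rfl
  have h4 : κ * (∑ i, u i • e i) ^ p = 0 := congrArg Tw.snd h3
  have h5 : ∑ i, u i • e i = 0 := by
    rcases mul_eq_zero.mp h4 with h | h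
    · exact absurd h hκ0
    · exact pow_eq_zero_iff hp.out.ne_zero |>.mp h
  have h6 := indep p e he _ h5
  funext i
  obtain ⟨w, hw⟩ := h6 i
  have h7 : (v i).val = p ^ 2 * w := by rw [hu i, hw]; ring
  have h8 : p ^ 2 ∣ (v i).val := ⟨w, h7⟩
  have h9 := Nat.eq_zero_of_dvd_of_lt h8 (ZMod.val_lt (v i))
  exact (ZMod.val_eq_zero (v i)).mp h9

theorem exists_equiv [Fintype F] (hκ : ∀ x y : F, p • (⟨x, y⟩ : Tw D) = ⟨0, κ * x ^ p⟩)
    (hκ0 : κ ≠ 0) (r : ℕ) (hr : Module.finrank (ZMod p) F = r) :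
    Nonempty ((Fin r → ZMod (p ^ 2)) ≃+ Tw D) := by
  haveI : NeZero (p ^ 2) := ⟨pow_ne_zero 2 hp.out.ne_zero⟩
  haveI : FiniteDimensional (ZMod p) F := Module.Finite.of_finite
  let b := (Module.finBasisOfFinrankEq (ZMod p) F hr)
  have hinj := hom_injective D p κ hκ hκ0 r b b.linearIndependent
  letI : Fintype (Tw D) := Fintype.ofEquiv _ (equivProd D).symm
  have hcard : Fintype.card (Fin r → ZMod (p ^ 2)) = Fintype.card (Tw D) := by
    rw [Fintype.card_congr (equivProd D), Fintype.card_prod, Fintype.card_fun, ZMod.card,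
      Fintype.card_fin]
    have h1 : Fintype.card F = p ^ r := by
      rw [Module.card_eq_pow_finrank (K := ZMod p) (V := F), hr, ZMod.card]
    rw [h1]
    ring
  have hbij := (Fintype.bijective_iff_injective_and_card _).mpr ⟨hinj, hcard⟩
  exact ⟨AddEquiv.ofBijective _ hbij⟩

end hom

/-- the Sidon property -/
def Sidon {G : Type} [AddCommGroup G] (A : Finset G) : Prop :=
  ∀ a ∈ A, ∀ b ∈ A, ∀ c ∈ A, ∀ d ∈ A, a + b = c + d → (a = c ∧ b = d) ∨ (a = d ∧ b = c)

theorem lift_sidon {G : Type} [AddCommGroup G] {F : Type} [Field F] (D : Coc F) (e : G ≃+ Tw D)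
    (H : Finset F) (hH : ∀ a ∈ H, ∀ b ∈ H, ∀ c ∈ H, ∀ d ∈ H, a + b = c + d → D.c a b = D.c c d →
      (a = c ∧ b = d) ∨ (a = d ∧ b = c)) :
    ∃ A : Finset G, Sidon A ∧ A.card = H.card := by
  let φ : F ↪ G := ⟨fun x => e.symm ⟨x, 0⟩, by
    intro x y h
    have h1 := e.symm.injective h
    exact congrArg Tw.fst h1⟩
  refine ⟨H.map φ, ?_, card_map φ⟩
  intro a' ha b' hb c' hc d' hd h
  obtain ⟨a, ha2, rfl⟩ := mem_map.mp ha
  obtain ⟨b, hb2, rfl⟩ := mem_map.mp hb
  obtain ⟨c, hc2, rfl⟩ := mem_map.mp hc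
  obtain ⟨d, hd2, rfl⟩ := mem_map.mp hd
  have h1 : (⟨a, 0⟩ : Tw D) + ⟨b, 0⟩ = ⟨c, 0⟩ + ⟨d, 0⟩ := by
    have h2 : e.symm ⟨a, 0⟩ + e.symm ⟨b, 0⟩ = e.symm ⟨c, 0⟩ + e.symm ⟨d, 0⟩ := h
    rw [← map_add, ← map_add] at h2
    exact e.symm.injective h2
  have h2 : a + b = c + d := congrArg Tw.fst h1
  have h3 : (0 : F) + 0 + D.c a b = 0 + 0 + D.c c d := congrArg Tw.snd h1
  simp only [zero_add] at h3
  rcases hH a ha2 b hb2 c hc2 d hd2 h2 h3 with ⟨h4, h5⟩ | ⟨h4, h5⟩
  · left; rw [h4, h5]; exact ⟨rfl, rfl⟩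
  · right; rw [h4, h5]; exact ⟨rfl, rfl⟩

section half

variable {F : Type} [Field F] [Fintype F]

theorem exists_half (h2 : (2 : F) ≠ 0) (S : Finset F) (hS : ∀ x ∈ S, -x ∈ S) :
    ∃ H : Finset F, H ⊆ S ∧ S.card ≤ 2 * H.card ∧ ∀ x ∈ H, -x ∈ H → x = 0 := by
  classical
  let e := Fintype.equivFin F
  refine ⟨S.filter fun x => e x ≤ e (-x), filter_subset _ _, ?_, ?_⟩
  · have h1 : S ⊆ (S.filter fun x => e x ≤ e (-x)) ∪
        (S.filter fun x => e x ≤ e (-x)).image (fun x => -x) := by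
      intro x hx
      rw [mem_union, mem_filter, mem_image]
      by_cases h : e x ≤ e (-x)
      · exact Or.inl ⟨hx, h⟩
      · right
        refine ⟨-x, mem_filter.mpr ⟨hS x hx, ?_⟩, neg_neg x⟩
        rw [neg_neg]
        exact (not_le.mp h).le
    have h2 := (card_le_card h1).trans (card_union_le _ _)
    have h3 : ((S.filter fun x => e x ≤ e (-x)).image (fun x => -x)).card ≤
      (S.filter fun x => e x ≤ e (-x)).card := card_image_le
    omega
  · intro x hx hx'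
    rw [mem_filter] at hx hx'
    rw [neg_neg] at hx'
    have h3 : x = -x := e.injective (le_antisymm hx.2 hx'.2)
    have h4 : (2 : F) * x = 0 := by
      rw [two_mul]
      nth_rewrite 2 [h3]
      exact add_neg_cancel x
    exact (mul_eq_zero.mp h4).resolve_left h2

end half

theorem pair_eq {F : Type} [Field F] {a b c d : F} (h1 : a + b = c + d) (h2 : a * b = c * d) :
    (a = c ∧ b = d) ∨ (a = d ∧ b = c) := by
  have h3 : (a - c) * (a - d) = 0 := by linear_combination a * h1 - h2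
  rcases mul_eq_zero.mp h3 with h | h
  · have h4 : a = c := sub_eq_zero.mp h
    left
    refine ⟨h4, ?_⟩
    rw [h4] at h1
    exact add_left_cancel h1
  · have h4 : a = d := sub_eq_zero.mp h
    right
    refine ⟨h4, ?_⟩
    rw [h4, add_comm c d] at h1
    exact add_left_cancel h1

/-- the cocycle for `p = 3` -/
def C3 (F : Type) [CommRing F] : Coc F where
  c a b := a * b * (a + b)
  symm a b := by ring
  zero a := by ring
  assoc a b d := by ring

/-- the cocycle for `p = 5` -/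
def C5 (F : Type) [CommRing F] : Coc F where
  c a b := a * b * (a + b) * (a ^ 2 + a * b + b ^ 2)
  symm a b := by ring
  zero a := by ring
  assoc a b d := by ring

theorem smul3 (F : Type) [Field F] [CharP F 3] (x y : F) :
    3 • (⟨x, y⟩ : Tw (C3 F)) = ⟨0, 2 * x ^ 3⟩ := by
  have h3 : (3 : F) = 0 := by exact_mod_cast CharP.cast_eq_zero F 3
  have e : 3 • (⟨x, y⟩ : Tw (C3 F)) = ⟨x, y⟩ + ⟨x, y⟩ + ⟨x, y⟩ := by
    rw [show (3 : ℕ) = 2 + 1 from rfl, add_nsmul, two_nsmul, one_nsmul]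
  rw [e]
  refine Tw.ext ?_ ?_
  · show x + x + x = 0
    linear_combination x * h3
  · show y + y + x * x * (x + x) + y + (x + x) * x * (x + x + x) = 2 * x ^ 3
    linear_combination (y + 2 * x ^ 3) * h3

theorem smul5 (F : Type) [Field F] [CharP F 5] (x y : F) :
    5 • (⟨x, y⟩ : Tw (C5 F)) = ⟨0, (-1) * x ^ 5⟩ := by
  have h5 : (5 : F) = 0 := by exact_mod_cast CharP.cast_eq_zero F 5
  have e : 5 • (⟨x, y⟩ : Tw (C5 F)) = ⟨x, y⟩ + ⟨x, y⟩ + ⟨x, y⟩ + ⟨x, y⟩ + ⟨x, y⟩ := by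
    rw [show (5 : ℕ) = 2 + 1 + 1 + 1 from rfl, add_nsmul, add_nsmul, add_nsmul, two_nsmul,
      one_nsmul]
  rw [e]
  refine Tw.ext ?_ ?_
  · show x + x + x + x + x = 0
    linear_combination x * h5
  · show y + y + x * x * (x + x) * (x ^ 2 + x * x + x ^ 2) +
      y + (x + x) * x * (x + x + x) * ((x + x) ^ 2 + (x + x) * x + x ^ 2) +
      y + (x + x + x) * x * (x + x + x + x) * ((x + x + x) ^ 2 + (x + x + x) * x + x ^ 2) +
      y + (x + x + x + x) * x * (x + x + x + x + x) *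
        ((x + x + x + x) ^ 2 + (x + x + x + x) * x + x ^ 2) = (-1) * x ^ 5
    linear_combination (y + 125 * x ^ 5) * h5

end Pool.Agent.K1H61.Bab
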