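import Pool.Agent.K1H61.Bab.Core

/-!
# The set of Teichmüller representatives for `p = 3` and `p = 5`
-/

set_option autoImplicit false

namespace Pool.Agent.K1H61.Bab

open Finset

theorem three {G : Type} [AddCommGroup G] (r : ℕ) (hr : r ≠ 0)
    (eG : G ≃+ (Fin r → ZMod 9)) :
    ∃ A : Finset G, Sidon A ∧ 3 ^ r ≤ 2 * A.card := by
  haveI : Fact (Nat.Prime 3) := ⟨by norm_num⟩
  let F := GaloisField 3 r
  haveI : Fintype F := Fintype.ofFinite F
  have hcard : Fintype.card F = 3 ^ r := by
    rw [← Nat.card_eq_fintype_card]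
    exact GaloisField.card 3 r hr
  have h2 : (2 : F) ≠ 0 := by
    have : ((2 : ℕ) : F) ≠ 0 := by
      intro h
      have := (CharP.cast_eq_zero_iff F 3 2).mp h
      omega
    exact_mod_cast this
  obtain ⟨e⟩ := exists_equiv (C3 F) 3 (2 : F) (smul3 F) h2 r (GaloisField.finrank 3 hr)
  obtain ⟨H, _, hH1, hH2⟩ := exists_half h2 (univ : Finset F) (fun _ _ => mem_univ _)
  obtain ⟨A, hA, hAc⟩ := lift_sidon (C3 F) (eG.trans e) H (by
    intro a ha b hb c hc d hd h1 h3
    have h4 : (a * b - c * d) * (a + b) = 0 := by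
      have h5 : a * b * (a + b) = c * d * (c + d) := h3
      rw [← h1] at h5
      linear_combination h5
    rcases mul_eq_zero.mp h4 with h | h
    · exact pair_eq h1 (sub_eq_zero.mp h)
    · have hb' : b = -a := by linear_combination h
      have hd' : d = -c := by linear_combination h - h1
      have ha0 : a = 0 := hH2 a ha (hb' ▸ hb)
      have hc0 : c = 0 := hH2 c hc (hd' ▸ hd)
      left
      rw [hb', hd', ha0, hc0]
      exact ⟨rfl, rfl⟩)
  refine ⟨A, hA, ?_⟩
  rw [hAc, ← hcard]
  exact hH1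

section quad

variable {F : Type} [Field F] [Fintype F] [Algebra (ZMod 5) F]

theorem quad_nonzero (A B : ZMod 5) :
    3 ≤ ((univ : Finset (ZMod 5)).filter fun k => A + 2 * k * B + k ^ 2 ≠ 0).card := by
  revert A B
  decide

theorem exists_functional : ∃ l : F →ₗ[ZMod 5] ZMod 5, l 1 = 1 := by
  haveI : Fact (Nat.Prime 5) := ⟨by norm_num⟩
  have h1 : ∃ φ : Module.Dual (ZMod 5) F, φ 1 ≠ 0 := by
    by_contra hc
    push Not at hc
    exact one_ne_zero ((Module.forall_dual_apply_eq_zero_iff (ZMod 5) (1 : F)).mp hc)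
  obtain ⟨φ, hφ⟩ := h1
  refine ⟨(φ 1)⁻¹ • φ, ?_⟩
  rw [LinearMap.smul_apply, smul_eq_mul]
  exact inv_mul_cancel₀ hφ

theorem many (l : F →ₗ[ZMod 5] ZMod 5) (hl : l 1 = 1) :
    3 * Fintype.card F ≤ 5 * ((univ : Finset F).filter fun x => l (x ^ 2) ≠ 0).card := by
  classical
  have h1 : ∀ x : F, 3 ≤ ((univ : Finset (ZMod 5)).filter fun k =>
      l ((x + algebraMap (ZMod 5) F k) ^ 2) ≠ 0).card := by
    intro x
    have h2 : ∀ k : ZMod 5, l ((x + algebraMap (ZMod 5) F k) ^ 2) =
        l (x ^ 2) + 2 * k * l x + k ^ 2 := by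
      intro k
      have h3 : (x + algebraMap (ZMod 5) F k) ^ 2 =
          x ^ 2 + (2 * k) • x + (k ^ 2) • (1 : F) := by
        rw [Algebra.smul_def, Algebra.smul_def, map_mul, map_pow, map_ofNat]
        ring
      rw [h3, map_add, map_add, map_smul, map_smul, hl, smul_eq_mul, smul_eq_mul, mul_one]
    simp only [h2]
    exact quad_nonzero _ _
  have h2 : ∑ x : F, ((univ : Finset (ZMod 5)).filter fun k =>
      l ((x + algebraMap (ZMod 5) F k) ^ 2) ≠ 0).card =
      ∑ k : ZMod 5, ((univ : Finset F).filter fun x =>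
        l ((x + algebraMap (ZMod 5) F k) ^ 2) ≠ 0).card := by
    simp only [card_filter]
    exact sum_comm
  have h3 : ∀ k : ZMod 5, ((univ : Finset F).filter fun x =>
        l ((x + algebraMap (ZMod 5) F k) ^ 2) ≠ 0).card =
      ((univ : Finset F).filter fun x => l (x ^ 2) ≠ 0).card := by
    intro k
    refine card_bij (fun x _ => x + algebraMap (ZMod 5) F k) ?_ ?_ ?_
    · intro x hx
      simp only [mem_filter, mem_univ, true_and] at hx ⊢
      exact hx
    · intro x _ y _ h
      exact add_right_cancel h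
    · intro y hy
      simp only [mem_filter, mem_univ, true_and] at hy
      refine ⟨y - algebraMap (ZMod 5) F k, ?_, sub_add_cancel _ _⟩
      simp only [mem_filter, mem_univ, true_and, sub_add_cancel]
      exact hy
  have h4 : ∑ k : ZMod 5, ((univ : Finset F).filter fun x =>
        l ((x + algebraMap (ZMod 5) F k) ^ 2) ≠ 0).card =
      5 * ((univ : Finset F).filter fun x => l (x ^ 2) ≠ 0).card := by
    rw [sum_congr rfl (fun k _ => h3 k), sum_const, card_univ, ZMod.card, smul_eq_mul]
  rw [← h4, ← h2]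
  calc 3 * Fintype.card F = ∑ x : F, 3 := by
        rw [sum_const, card_univ, smul_eq_mul, mul_comm]
    _ ≤ _ := sum_le_sum fun x _ => h1 x

theorem exists_level (l : F →ₗ[ZMod 5] ZMod 5) (hl : l 1 = 1) :
    ∃ t : ZMod 5, t ≠ 0 ∧
      3 * Fintype.card F ≤ 20 * ((univ : Finset F).filter fun x => l (x ^ 2) = t).card := by
  classical
  by_contra hc
  push Not at hc
  have h1 := many l hl
  have h2 : ((univ : Finset F).filter fun x => l (x ^ 2) ≠ 0) =
      ((univ : Finset (ZMod 5)).filter fun t => t ≠ 0).biUnion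
        fun t => (univ : Finset F).filter fun x => l (x ^ 2) = t := by
    ext x
    simp only [mem_filter, mem_univ, true_and, mem_biUnion]
    constructor
    · intro h
      exact ⟨l (x ^ 2), h, rfl⟩
    · rintro ⟨t, ht, h⟩
      rw [h]
      exact ht
  have h3 : ((univ : Finset F).filter fun x => l (x ^ 2) ≠ 0).card ≤
      ∑ t ∈ (univ : Finset (ZMod 5)).filter (fun t => t ≠ 0),
        ((univ : Finset F).filter fun x => l (x ^ 2) = t).card := by
    rw [h2]
    exact card_biUnion_le
  have h4 : 20 * ∑ t ∈ (univ : Finset (ZMod 5)).filter (fun t => t ≠ 0),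
        ((univ : Finset F).filter fun x => l (x ^ 2) = t).card <
      ∑ t ∈ (univ : Finset (ZMod 5)).filter (fun t => t ≠ 0), 3 * Fintype.card F := by
    rw [mul_sum]
    refine sum_lt_sum_of_nonempty ⟨1, by decide⟩ fun t ht => ?_
    simp only [mem_filter, mem_univ, true_and] at ht
    exact hc t ht
  rw [sum_const, smul_eq_mul] at h4
  have h5 : ((univ : Finset (ZMod 5)).filter (fun t => t ≠ 0)).card = 4 := by decide
  rw [h5] at h4
  omega

end quad

theorem four_t : ∀ t : ZMod 5, t ≠ 0 → t + t + t + t = 0 → False := by decide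

theorem five {G : Type} [AddCommGroup G] (r : ℕ) (hr : r ≠ 0)
    (eG : G ≃+ (Fin r → ZMod 25)) :
    ∃ A : Finset G, Sidon A ∧ 3 * 5 ^ r ≤ 40 * A.card := by
  haveI : Fact (Nat.Prime 5) := ⟨by norm_num⟩
  let F := GaloisField 5 r
  haveI : Fintype F := Fintype.ofFinite F
  have hcard : Fintype.card F = 5 ^ r := by
    rw [← Nat.card_eq_fintype_card]
    exact GaloisField.card 5 r hr
  have h2 : (2 : F) ≠ 0 := by
    have : ((2 : ℕ) : F) ≠ 0 := by
      intro h
      have := (CharP.cast_eq_zero_iff F 5 2).mp h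
      omega
    exact_mod_cast this
  obtain ⟨e⟩ := exists_equiv (C5 F) 5 (-1 : F) (smul5 F) (neg_ne_zero.mpr one_ne_zero) r
    (GaloisField.finrank 5 hr)
  obtain ⟨l, hl⟩ := exists_functional (F := F)
  obtain ⟨t, ht, hS⟩ := exists_level l hl
  obtain ⟨H, hHS, hH1, hH2⟩ := exists_half h2 ((univ : Finset F).filter fun x => l (x ^ 2) = t)
    (fun x hx => by
      simp only [mem_filter, mem_univ, true_and, neg_sq] at hx ⊢
      exact hx)
  have hHt : ∀ x ∈ H, l (x ^ 2) = t := by
    intro x hx
    have := hHS hx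
    simp only [mem_filter, mem_univ, true_and] at this
    exact this
  have hH0 : ∀ x ∈ H, -x ∈ H → False := by
    intro x hx hx'
    have h0 := hH2 x hx hx'
    have h1 := hHt x hx
    rw [h0, zero_pow (by norm_num), map_zero] at h1
    exact ht h1.symm
  obtain ⟨A, hA, hAc⟩ := lift_sidon (C5 F) (eG.trans e) H (by
    intro a ha b hb c hc d hd h1 h3
    have h5 : a * b * (a + b) * (a ^ 2 + a * b + b ^ 2) =
      c * d * (c + d) * (c ^ 2 + c * d + d ^ 2) := h3
    have h4 : (a * b - c * d) * ((a + b) * ((a + b) ^ 2 - a * b - c * d)) = 0 := by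
      have h6 : c * d * (c + d) * (c ^ 2 + c * d + d ^ 2) =
          c * d * (a + b) * ((a + b) ^ 2 - c * d) := by
        rw [h1]; ring
      rw [h6] at h5
      linear_combination h5
    rcases mul_eq_zero.mp h4 with h | h
    · exact pair_eq h1 (sub_eq_zero.mp h)
    · exfalso
      rcases mul_eq_zero.mp h with h | h
      · have hb' : b = -a := by linear_combination h
        exact hH0 a ha (hb' ▸ hb)
      · have h6 : a ^ 2 + b ^ 2 + c ^ 2 + d ^ 2 = 0 := by
          have h7 : a ^ 2 + b ^ 2 + c ^ 2 + d ^ 2 =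
              (a + b) ^ 2 - 2 * (a * b) + ((c + d) ^ 2 - 2 * (c * d)) := by ring
          rw [h7, ← h1]
          linear_combination 2 * h
        have h7 := congrArg l h6
        rw [map_add, map_add, map_add, hHt a ha, hHt b hb, hHt c hc, hHt d hd, map_zero] at h7
        exact four_t t ht h7)
  refine ⟨A, hA, ?_⟩
  rw [hAc, ← hcard]
  omega

end Pool.Agent.K1H61.Bab
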